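import Mathlib
import Pool.Agent.Run7.h911.MW2

/-!
# The joint Sato-Tate law for three and more modular forms of different weights

Let `f_1, ..., f_m` be newforms without complex multiplication, no two of which are twists of each other. For `m ≥ 3`
the joint equidistribution of their angles `θ_i(v)` for the product of the Sato-Tate measures, which is the
Sato-Tate conjecture for the compatible family of `f_1 ⊗ ... ⊗ f_m` (for `m` odd and even weights `k_i` the weight
`∑ (k_i - 1)` of this family is odd), is not known for a single `m`-tuple: it needs all the `L`-functions of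
`⊗ Sym^{n_i} f_i`. We prove that it holds up to a small error if the weights are large and different: with a
parameter `D` measuring the weights (for `m = 3`: the quotients of `k_i - 1` and of `k_j - 1` by their greatest common
divisor are `≥ D`, for all `i ≠ j`; e.g. the `k_i - 1` are three different primes `≥ D`), with natural
densities,

* the law is exact for all test functions `∏ F_i(θ_i)` with arbitrary continuous functions for two of the
  indices, and polynomials in `cos` of degree `< D` for the others;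
* for `m = 3` the density of the primes with `θ_i(v) ∈ I_i` for `i = 1, 2, 3` differs from `μ(I_1) μ(I_2) μ(I_3)`
  by at most `12 / D` times the product of two of the three `μ(I_i)`, for all intervals;
* for all `m`, the density of the primes with `θ_i(v) ∈ I_i` for all `i` differs from `∏ μ(I_i)` by at most
  `μ(I_p) μ(I_q) (m - 2) (24 / D) (1 + 12 / D)^(m - 3)`, `p ≠ q`;
* the moments of the trace `∏ 2 cos θ_i` of the family of order `< D` are those of the Sato-Tate group.

The reason: for two of the forms arbitrary symmetric powers can be controlled by a Rankin-Selberg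
`L`-function, and the tensor product of `Sym^{n_i} f_i`, `i ≠ p`, has distinct Hodge-Tate weights if `n_i < D` for all
these `i` but one, so that it is potentially automorphic by the theorem of Barnet-Lamb, Gee, Geraghty and Taylor.
These facts are listed in the structure `Forms` (`Pool/Agent/Run7/h911/MW1.lean`). The error terms come from
one-sided approximations of intervals by polynomials (Selberg, Vaaler; proved in `VS1`, ..., `VS4`).
-/

set_option autoImplicit false

namespace Pool.Agent.Results.MP_4c4ce6_nt.DifferentWeights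

open NumberField IsDedekindDomain Filter Topology
open Run7.h911.MW (Forms)

variable {K : Type} [Field K] [NumberField K]

/-- the proportion of the primes with `P` among the primes of norm at most `N` -/
noncomputable def density (P : HeightOneSpectrum (𝓞 K) → Prop) (N : ℕ) : ℝ :=
  (Nat.card {v : HeightOneSpectrum (𝓞 K) // Ideal.absNorm v.asIdeal ≤ N ∧ P v} : ℝ) /
    Nat.card {v : HeightOneSpectrum (𝓞 K) // Ideal.absNorm v.asIdeal ≤ N}

/-- the average of `f` over the primes of norm at most `N` -/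
noncomputable def mean (f : HeightOneSpectrum (𝓞 K) → ℝ) (N : ℕ) : ℝ :=
  (∑ᶠ v ∈ {v : HeightOneSpectrum (𝓞 K) | Ideal.absNorm v.asIdeal ≤ N}, f v) /
    Nat.card {v : HeightOneSpectrum (𝓞 K) // Ideal.absNorm v.asIdeal ≤ N}

/-- the integral for the Sato-Tate measure -/
noncomputable def stInt (f : ℝ → ℝ) : ℝ := 2 / Real.pi * ∫ t in (0)..Real.pi, f t * Real.sin t ^ 2

/-- the Sato-Tate measure of the interval `[a, b]` of angles -/
noncomputable def st (a b : ℝ) : ℝ := 2 / Real.pi * ∫ t in a..b, Real.sin t ^ 2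

theorem mean_eq (f : HeightOneSpectrum (𝓞 K) → ℝ) (N : ℕ) : mean f N = Run7.h911.NT.avg f N := by
  classical
  unfold mean Run7.h911.NT.avg
  have h1 : Nat.card {v : HeightOneSpectrum (𝓞 K) // Ideal.absNorm v.asIdeal ≤ N} =
      (Pool.Agent.W540.BE.upto K N).card := Nat.subtype_card _ fun v => Pool.Agent.W540.BE.mem_upto
  have h2 : {v : HeightOneSpectrum (𝓞 K) | Ideal.absNorm v.asIdeal ≤ N} =
      ((Pool.Agent.W540.BE.upto K N : Finset _) : Set (HeightOneSpectrum (𝓞 K))) := by
    ext v
    rw [Set.mem_ofPred_eq, Finset.mem_coe]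
    exact Pool.Agent.W540.BE.mem_upto.symm
  rw [h1, h2, finsum_mem_coe_finset]

theorem box_eq {m : ℕ} (θ : Fin m → HeightOneSpectrum (𝓞 K) → ℝ) (a b : Fin m → ℝ) (N : ℕ) :
    density (fun v => ∀ i, a i ≤ θ i v ∧ θ i v ≤ b i) N =
      Run7.h911.NT.avg (fun v => ∏ i, Run7.h911.ST.ind (a i) (b i) (θ i v)) N := by
  classical
  unfold density Run7.h911.NT.avg
  have h1 : Nat.card {v : HeightOneSpectrum (𝓞 K) // Ideal.absNorm v.asIdeal ≤ N} =
      (Pool.Agent.W540.BE.upto K N).card := Nat.subtype_card _ fun v => Pool.Agent.W540.BE.mem_upto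
  have h2 : Nat.card {v : HeightOneSpectrum (𝓞 K) // Ideal.absNorm v.asIdeal ≤ N ∧
      ∀ i, a i ≤ θ i v ∧ θ i v ≤ b i} =
      ((Pool.Agent.W540.BE.upto K N).filter fun v => ∀ i, a i ≤ θ i v ∧ θ i v ≤ b i).card :=
    Nat.subtype_card _ fun v => by
      rw [Finset.mem_filter]
      exact and_congr_left fun _ => Pool.Agent.W540.BE.mem_upto
  rw [h1, h2, Finset.card_filter]
  congr 1
  push_cast
  refine Finset.sum_congr rfl fun v _ => ?_
  by_cases h : ∀ i, a i ≤ θ i v ∧ θ i v ≤ b i
  · rw [if_pos h]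
    symm
    refine Finset.prod_eq_one fun i _ => ?_
    unfold Run7.h911.ST.ind
    rw [if_pos (Set.mem_Icc.2 (h i))]
  · rw [if_neg h]
    push Not at h
    obtain ⟨i, hi⟩ := h
    symm
    refine Finset.prod_eq_zero (Finset.mem_univ i) ?_
    unfold Run7.h911.ST.ind
    rw [if_neg]
    intro h'
    have := hi (Set.mem_Icc.1 h').1
    linarith [(Set.mem_Icc.1 h').2]

theorem exact {D : ℕ} (hD : 0 < D) {m : ℕ} {θ : Fin m → HeightOneSpectrum (𝓞 K) → ℝ} (h : Forms D θ)
    {p q : Fin m} (hpq : p ≠ q) {F : Fin m → ℝ → ℝ} (hF : ∀ i, Continuous (F i))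
    (hP : ∀ i, i ≠ p → i ≠ q → ∃ P : Polynomial ℝ, P.natDegree < D ∧ ∀ t, F i t = P.eval (Real.cos t)) :
    Tendsto (mean fun v => ∏ i, F i (θ i v)) atTop (𝓝 (∏ i, stInt (F i))) := by
  have := Run7.h911.MW.prod_law hD h hpq (F := F) (Λ := fun i => Run7.h911.ST.Lam (F i))
    (Run7.h911.MW.adm_cont (hF p)) (Run7.h911.MW.adm_cont (hF q)) (fun i hip hiq => by
      obtain ⟨P, hP1, hP2⟩ := hP i hip hiq
      exact ⟨(Run7.h911.MW.tri_poly hP1).congr hP2, rfl⟩)
  exact this.congr fun N => (mean_eq _ N).symm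

/-- **Modular forms of different weights.** `θ i v` is the angle of the `i`-th form at the prime `v`. -/
theorem result {D : ℕ} (hD : 0 < D) :
    (∀ (m : ℕ) (θ : Fin m → HeightOneSpectrum (𝓞 K) → ℝ), Forms D θ → ∀ p q : Fin m, p ≠ q →
      -- the exact law
      (∀ F : Fin m → ℝ → ℝ, (∀ i, Continuous (F i)) →
        (∀ i, i ≠ p → i ≠ q → ∃ P : Polynomial ℝ, P.natDegree < D ∧ ∀ t, F i t = P.eval (Real.cos t)) →
        Tendsto (mean fun v => ∏ i, F i (θ i v)) atTop (𝓝 (∏ i, stInt (F i)))) ∧
      -- the moments of the trace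
      (∀ n : ℕ, n < D → Tendsto (mean fun v => (∏ i, 2 * Real.cos (θ i v)) ^ n) atTop
        (𝓝 (stInt (fun t => (2 * Real.cos t) ^ n) ^ m))) ∧
      -- boxes
      (∀ a b : Fin m → ℝ, (∀ i, 0 ≤ a i) → (∀ i, a i ≤ b i) → (∀ i, b i ≤ Real.pi) →
        ∀ δ : ℝ, 0 < δ → ∀ᶠ N : ℕ in atTop,
          |density (fun v => ∀ i, a i ≤ θ i v ∧ θ i v ≤ b i) N - ∏ i, st (a i) (b i)| ≤
            st (a p) (b p) * st (a q) (b q) * ((m - 2 : ℕ) * (24 / D) * (1 + 12 / D) ^ (m - 3)) + δ)) ∧
    -- boxes for three forms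
    (∀ θ : Fin 3 → HeightOneSpectrum (𝓞 K) → ℝ, Forms D θ → ∀ p q : Fin 3, p ≠ q →
      ∀ a b : Fin 3 → ℝ, (∀ i, 0 ≤ a i) → (∀ i, a i ≤ b i) → (∀ i, b i ≤ Real.pi) →
        ∀ δ : ℝ, 0 < δ → ∀ᶠ N : ℕ in atTop,
          |density (fun v => ∀ i, a i ≤ θ i v ∧ θ i v ≤ b i) N - ∏ i, st (a i) (b i)| ≤
            st (a p) (b p) * st (a q) (b q) * (12 / D) + δ) := by
  refine ⟨fun m θ h p q hpq => ⟨fun F hF hP => exact hD h hpq hF hP, fun n hn => ?_,
    fun a b h0 hab hb δ hδ => ?_⟩, fun θ h p q hpq a b h0 hab hb δ hδ => ?_⟩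
  · have := exact hD h hpq (F := fun _ t => (2 * Real.cos t) ^ n) (fun i => by fun_prop)
      (fun i _ _ => ⟨(Polynomial.C 2 * Polynomial.X) ^ n, lt_of_le_of_lt (by
        refine Polynomial.natDegree_pow_le.trans ?_
        have : (Polynomial.C (2 : ℝ) * Polynomial.X).natDegree ≤ 1 := 
          (Polynomial.natDegree_C_mul_le 2 Polynomial.X).trans Polynomial.natDegree_X_le
        exact (Nat.mul_le_mul_left n this).trans (by omega)) hn, fun t => by simp⟩)
    simp only [Finset.prod_const, Finset.card_univ, Fintype.card_fin] at this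
    refine this.congr fun N => ?_
    congr 1
    funext v
    rw [Finset.prod_pow]
  · filter_upwards [Run7.h911.MW.box hD h hpq h0 hab hb hδ] with N hN
    rw [box_eq]
    exact hN
  · have hr : ∃ r : Fin 3, p ≠ r ∧ q ≠ r := by
      revert p q
      decide
    obtain ⟨r, hpr, hqr⟩ := hr
    filter_upwards [Run7.h911.MW.box3 hD h hpq hpr hqr h0 hab hb hδ] with N hN
    rw [box_eq]
    exact hN

end Pool.Agent.Results.MP_4c4ce6_nt.DifferentWeights
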