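import Pool.Agent.Run7.h209.ST.Spec

/-!
# The law of the traces of Frobenius for almost all hypersurfaces of odd dimension

Let `X` be a smooth hypersurface of degree `δ` in `P ^ n` over `Q`, `n` even, so that `H ^ (n - 1)(X)` has odd weight and its
algebraic Sato-Tate group is symplectic. For a prime `p` of good reduction and `q = p ^ j`,
`#X(F_q) = 1 + q + … + q ^ (n - 1) - t_{p, j} q ^ ((n - 1) / 2)`, where `t_{p, j}` is the trace of the `j`-th power of the
normalised Frobenius class `x_p`. The Sato-Tate conjecture says for general `X` that `(t_{p, 1}, t_{p, 2}, …)` has over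
the primes the law of `(Tr g, Tr g ^ 2, …)`, `g` a random matrix of `USp(b)`, which for large `b` is the law of independent
normal variables of variance `j` and mean `-1` (`j` even) or `0` (`j` odd) (Diaconis, Shahshahani; Johansson: with an
error that is faster than exponential in `b`).

It is proved, unconditionally, that this law holds up to `η` for almost all `X` of large degree, for the primes
`p ≤ Y`, simultaneously for all large `Y`, for one fixed form with integer coefficients at least `8 Y ^ 3` in range, and for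
the vectors of the traces of several random hypersurfaces at once (which are independent); and for the first
trace that the distribution functions differ by at most `5 / √m`, `m = ⌊(δ + 1) / 4⌋`.

The proof uses the moments of the traces (helper3, `Run7/h3/ST`), characteristic functions, the theorem of Lévy and the
inequality of Esseen. Bad primes are not excluded (at them `t_{p, j}` is defined by the same formula).
-/

set_option autoImplicit false

namespace Pool.Agent.Results.MP_4c4ce6_nt.LawOfTraces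

open Finset MeasureTheory ProbabilityTheory
open Pool.Agent.Y722.HS (Mon form)
open Run7.h209.ST (points box Most)
open scoped NNReal

/-- `t_{p, j}`: minus `(#X(F_q) - (1 + q + … + q ^ (n - 1))) / q ^ ((n - 1) / 2)`, `q = p ^ j`, for the hypersurface `F = 0` in
`P ^ n`. -/
noncomputable def tr {n : ℕ} (F : MvPolynomial (Fin (n + 1)) ℤ) (p j : ℕ) : ℝ :=
  -(((points p j {F} : ℝ) - ∑ i ∈ range n, ((p : ℝ) ^ j) ^ i) / Real.sqrt p ^ (j * (n - 1)))

/-- The law of independent normal variables, indexed by the members `l` of the family and `j = 1, …, J`, of variance `j` and of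
mean `-1` (`j` even) or `0` (`j` odd). -/
noncomputable def symplecticLaw (Λ : Type) [Fintype Λ] (J : ℕ) : Measure (Λ × Fin J → ℝ) :=
  Measure.pi fun i => gaussianReal (if Even (i.2.1 + 1) then -1 else 0) ((i.2.1 + 1 : ℕ) : ℝ≥0)

open scoped Classical in
/-- The proportion of the primes `p ≤ Y` with the property `P`. -/
noncomputable def freq (Y : ℕ) (P : ℕ → Prop) : ℝ :=
  (({p ∈ Icc 1 Y | p.Prime ∧ P p}.card : ℕ) : ℝ) / ({p ∈ Icc 1 Y | p.Prime}.card : ℕ)

lemma freq_eq (Y : ℕ) (P : ℕ → Prop) [DecidablePred P] : freq Y P = (({p ∈ Run7.h209.ST.pr Y | P p}.card : ℕ) : ℝ) / (Run7.h209.ST.pr Y).card := by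
  unfold freq Run7.h209.ST.pr
  rw [filter_filter]
  congr!

lemma tr_eq {n : ℕ} (hn : 2 ≤ n) (he : Even n) (F : MvPolynomial (Fin (n + 1)) ℤ) (p j : ℕ) :
    Run7.h209.ST.trace ∅ F n (∑ i ∈ range n, ((p : ℝ) ^ j) ^ i) p j = tr F p j := by
  unfold Run7.h209.ST.trace tr
  have h1 : Odd (n - 1) := by
    obtain ⟨k, hk⟩ := he
    exact ⟨k - 1, by omega⟩
  rw [h1.neg_one_pow, Set.empty_union, neg_one_mul]

/-- **The law of the traces of Frobenius of almost all hypersurfaces of odd dimension and large degree.** -/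
theorem result :
    -- the joint law of all traces `t_{p, j}(X_l)`, `j ≤ J`
    (∀ (Λ : Type) [Fintype Λ] [DecidableEq Λ] (J : ℕ) (A : Set (Λ × Fin J → ℝ)), MeasurableSet A → volume (frontier A) = 0 →
      ∀ η : ℝ, 0 < η → ∃ δ₀ : ℕ, ∀ n δ : Λ → ℕ, (∀ l, 2 ≤ n l ∧ Even (n l)) → (∀ l, δ₀ ≤ δ l) →
      ∃ C : ℝ, Most C fun X₀ T (t : (Σ l, Mon (n l) (δ l)) → ℤ) => ∀ Y : ℕ, X₀ ≤ Y → 8 * (Y : ℝ) ^ 3 ≤ T →
        |freq Y (fun p => (fun i : Λ × Fin J => tr (form fun m => t ⟨i.1, m⟩) p (i.2 + 1)) ∈ A) - (symplecticLaw Λ J A).toReal| ≤ η) ∧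
    -- the trace `t_{p, 1}(X_l)`, with a rate
    (∀ (Λ : Type) [Fintype Λ] [DecidableEq Λ] (n δ m : Λ → ℕ), (∀ l, 2 ≤ n l ∧ Even (n l)) → (∀ l, 1 ≤ m l ∧ 4 * m l ≤ δ l + 1) →
      ∃ C : ℝ, Most C fun X₀ T (t : (Σ l, Mon (n l) (δ l)) → ℤ) => ∀ Y : ℕ, X₀ ≤ Y → 8 * (Y : ℝ) ^ 3 ≤ T → ∀ l, ∀ x : ℝ,
        |freq Y (fun p => tr (form fun m => t ⟨l, m⟩) p 1 ≤ x) - (gaussianReal 0 1).real (Set.Iic x)| ≤ 5 / √(m l : ℝ)) := by
  classical
  refine ⟨fun Λ _ _ J A hAm hA η hη => ?_, fun Λ _ _ n δ m hn hm => ?_⟩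
  · have hs : ∀ l : Λ, ((fun _ : Λ => (-1 : ℝ)) l) ^ 2 = 1 := fun _ => by norm_num
    have hlaw : symplecticLaw Λ J = Run7.h209.ST.nrm (Run7.h209.ST.cc J fun _ : Λ => (-1 : ℝ)) (Run7.h209.ST.vv J) := by
      unfold symplecticLaw Run7.h209.ST.nrm Run7.h209.ST.cc Run7.h209.ST.vv Run7.h3.ST.eta
      congr 1
      funext i
      congr 1
      split_ifs <;> norm_num
    have hA0 : Run7.h209.ST.nrm (Run7.h209.ST.cc J fun _ : Λ => (-1 : ℝ)) (Run7.h209.ST.vv J) (frontier A) = 0 :=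
      Run7.h209.ST.nrm_ac _ _ (fun i => by
        unfold Run7.h209.ST.vv
        exact Nat.cast_ne_zero.2 (Nat.succ_ne_zero _)) hA
    obtain ⟨δ₀, hδ₀⟩ := Run7.h209.ST.law_gen J hs hAm hA0 hη
    refine ⟨δ₀, fun n δ hn hδ => ?_⟩
    obtain ⟨C₀, hC₀⟩ : ∃ C₀ : ℝ, C₀ = 1 + ∑ l, (n l : ℝ) := ⟨_, rfl⟩
    have hC1 : 1 ≤ C₀ := by
      rw [hC₀]
      have : 0 ≤ ∑ l, (n l : ℝ) := sum_nonneg fun l _ => Nat.cast_nonneg _
      linarith
    have hCn : ∀ l, (n l : ℝ) ≤ C₀ := fun l => by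
      rw [hC₀]
      have := single_le_sum (f := fun l => (n l : ℝ)) (fun l _ => Nat.cast_nonneg _) (mem_univ l)
      linarith
    obtain ⟨C, hC, h1⟩ := hδ₀ n n δ (fun _ => ∅) C₀ (fun l p j => ∑ i ∈ range (n l), ((p : ℝ) ^ j) ^ i) (fun l => (hn l).1) (fun l => by
        have h1 : Odd (n l - 1) := by
          obtain ⟨k, hk⟩ := (hn l).2
          have := (hn l).1
          exact ⟨k - 1, by omega⟩
        exact h1.neg_one_pow) hδ (fun l G hG => absurd hG (Set.notMem_empty G))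
      (fun l p hp j hj => Run7.h209.ST.hW_proj (by have := (hn l).1; omega) hp (mem_Icc.1 hj).1 (hCn l))
      (fun l p hp j hj => Run7.h209.ST.hb_proj (hn l).1 hp (mem_Icc.1 hj).1 hC1)
    refine ⟨C, fun N L T hT X₀ hX₀ => le_trans (le_of_eq ?_) (h1 N L T hT X₀ hX₀)⟩
    congr 3
    ext t
    rw [hlaw]
    simp only [freq_eq]
    have h2 : ∀ (i : Λ × Fin J) (p : ℕ), Run7.h209.ST.trace ∅ (form fun m => t ⟨i.1, m⟩) (n i.1) (∑ k ∈ range (n i.1), ((p : ℝ) ^ ((i.2 : ℕ) + 1)) ^ k) p (i.2 + 1) =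
        tr (form fun m => t ⟨i.1, m⟩) p (i.2 + 1) := fun i p => tr_eq (hn i.1).1 (hn i.1).2 _ _ _
    simp only [h2]
  · obtain ⟨C₀, hC₀⟩ : ∃ C₀ : ℝ, C₀ = 1 + ∑ l, (n l : ℝ) := ⟨_, rfl⟩
    have hC1 : 1 ≤ C₀ := by
      rw [hC₀]
      have : 0 ≤ ∑ l, (n l : ℝ) := sum_nonneg fun l _ => Nat.cast_nonneg _
      linarith
    have hCn : ∀ l, (n l : ℝ) ≤ C₀ := fun l => by
      rw [hC₀]
      have := single_le_sum (f := fun l => (n l : ℝ)) (fun l _ => Nat.cast_nonneg _) (mem_univ l)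
      linarith
    obtain ⟨C, hC, h1⟩ := Run7.h209.ST.rate m (fun l => (hm l).1) n n δ (fun _ => ∅) C₀ (fun l p => ∑ i ∈ range (n l), ((p : ℝ) ^ 1) ^ i)
      (fun l => (hn l).1) (fun l => (hm l).2) (fun l G hG => absurd hG (Set.notMem_empty G))
      (fun l p hp => by simpa using Run7.h209.ST.hW_proj (n := n l) (by have := (hn l).1; omega) hp (le_refl 1) (hCn l))
      (fun l p hp => by simpa using Run7.h209.ST.hb_proj (n := n l) (hn l).1 hp (le_refl 1) hC1)
    refine ⟨C, fun N L T hT X₀ hX₀ => le_trans (le_of_eq ?_) (h1 N L T hT X₀ hX₀)⟩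
    congr 3
    ext t
    simp only [freq_eq]
    have h2 : ∀ (l : Λ) (p : ℕ), Run7.h209.ST.trace ∅ (form fun m => t ⟨l, m⟩) (n l) (∑ k ∈ range (n l), ((p : ℝ) ^ 1) ^ k) p 1 =
        tr (form fun m => t ⟨l, m⟩) p 1 := fun l p => tr_eq (hn l).1 (hn l).2 _ _ _
    simp only [h2]

end Pool.Agent.Results.MP_4c4ce6_nt.LawOfTraces
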