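import Pool.Agent.Run7.h271.TW.Tw

/-!
# The Sato-Tate conjecture for the quadratic twists of a family

`K` is a number field, `ρ` a representation of `Gal(K̄/K)` by symplectic similitudes, unramified outside
of a finite set, for instance a member of a compatible family of odd weight as in the problem; its
values are embedded in `GL_{2g}(ℂ)` by `ι`. `C` is a Sato-Tate group of `ρ`, and `x v ∈ C` is in the
class of the prime `v`. There are no further hypotheses; in particular, nothing is known on the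
distribution of the `x v`.

The theorem compares the discrepancies of a function `f` on `C` for the classes of all the quadratic
twists `χ ⊗ ρ`: they agree, up to an error which is square summable over all the quadratic characters
`χ` of `K`, with the discrepancy of the even part of `f`, which is the same for all twists. So the
Sato-Tate law for odd functions, such as the characters of the symmetric powers of odd degree in the
case of elliptic curves, holds up to `δ` for all but `sup |f|² / δ²` quadratic twists.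
-/

set_option autoImplicit false
set_option linter.style.haveILetI false

namespace Pool.Agent.Results.MP_4c4ce6_nt.QuadraticTwists

open Pool.Agent.K4H40.ST Pool.Agent.K4H53.SI Pool.Agent.Run7.h271.TW
open NumberField IsDedekindDomain Filter Topology MeasureTheory

/-- The classes `χ(Frob v) x v` of the twist by `χ`, where `z = -1` and `σ v` is a Frobenius element
at `v`. -/
def tw {V Γ G : Type} [Group Γ] [Group G] (z : G) (σ : V → Γ) (x : V → G) (χ : Γ →* ℤˣ) : V → G :=
  fun v => if χ (σ v) = 1 then x v else z * x v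

/-- the even part of a function -/
noncomputable def even {G : Type} [Group G] (z : G) (f : G → ℂ) : G → ℂ :=
  fun c => (f c + f (z * c)) / 2

/-- the odd part of a function -/
noncomputable def odd {G : Type} [Group G] (z : G) (f : G → ℂ) : G → ℂ :=
  fun c => (f c - f (z * c)) / 2

open Pool.Agent.K4H40.ST.Zar in
theorem result {K : Type} [Field K] [NumberField K] {g : ℕ} {R : Type} [CommRing R]
    (ρ : Gal(AlgebraicClosure K/K) →* GL (Fin g ⊕ Fin g) R) (ι : R →+* ℂ)
    (hsymp : IsSymplectic ρ) (hunr : IsUnramified K (AlgebraicClosure K) ρ)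
    (C : Subgroup (GL (Fin g ⊕ Fin g) ℂ)) (hC : IsSatoTateGroup (extend ρ ι) C)
    (x : HeightOneSpectrum (𝓞 K) → C)
    (hx : IsClassSystem K (AlgebraicClosure K) (extend ρ ι) C x)
    (σ : HeightOneSpectrum (𝓞 K) → Gal(AlgebraicClosure K/K))
    (hσ : ∀ v, IsFrob K (AlgebraicClosure K) v (σ v)) :
    ∃ z : C, (z : GL (Fin g ⊕ Fin g) ℂ) = -1 ∧
      -- (1) `C` is a Sato-Tate group of all quadratic twists, and the `± x v` are their classes
      (∀ χ : Gal(AlgebraicClosure K/K) →* ℤˣ, IsOpen (χ.ker : Set Gal(AlgebraicClosure K/K)) →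
        IsSatoTateGroup (extend (twist χ ρ) ι) C ∧
        IsClassSystem K (AlgebraicClosure K) (extend (twist χ ρ) ι) C (tw z σ x χ)) ∧
      ∀ [MeasurableSpace C] [BorelSpace C] (μ : Measure C) [IsProbabilityMeasure μ]
        [μ.IsMulLeftInvariant] (f : C → ℂ), Continuous f →
      -- (2) the mean square of the discrepancies of the twists
      (∀ (I : Type) [Fintype I] (χ : I → (Gal(AlgebraicClosure K/K) →* ℤˣ)),
        (∀ i, IsOpen ((χ i).ker : Set Gal(AlgebraicClosure K/K))) → Function.Injective χ →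
        ∀ ε : ℝ, 0 < ε → ∀ᶠ N in atTop,
          ∑ i, ‖disc K μ (tw z σ x (χ i)) f N - disc K μ x (even z f) N‖ ^ 2 ≤
            (avg K (fun v => ((‖odd z f (x v)‖ ^ 2 : ℝ) : ℂ)) N).re + ε) ∧
      -- (3) the twists with a large discrepancy along an ultrafilter
      (∀ (B : ℝ), (∀ c, ‖f c‖ ≤ B) → ∀ (𝒰 : Ultrafilter ℕ), (𝒰 : Filter ℕ) ≤ atTop →
        ∀ δ : ℝ, 0 < δ →
        {χ : Gal(AlgebraicClosure K/K) →* ℤˣ | IsOpen (χ.ker : Set Gal(AlgebraicClosure K/K)) ∧
          ∀ᶠ N in (𝒰 : Filter ℕ),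
            δ < ‖disc K μ (tw z σ x χ) f N - disc K μ x (even z f) N‖}.encard ≤
          (⌊B ^ 2 / δ ^ 2⌋₊ : ℕ)) := by
  classical
  have hsim := Final.isSim_of ρ ι hsymp
  have hun := unr_extend ρ ι hunr
  obtain ⟨c₀, hc₀, hs⟩ := Cls.exists_scal_mem (extend ρ ι) hC hx Fld.exists_not_mem
  have hneg := ST_neg (extend ρ ι) hC hc₀ hs
  refine ⟨⟨scal (-1), hneg⟩, neg_eq.symm, ?_, ?_⟩
  · intro χ hχ
    have hidx : χ.ker.index ≠ 0 := Main.index_ne hχ
    have h1 := zarG_twist (extend ρ ι) (extend (twist χ ρ) ι) χ (twist_extend χ ρ ι) hidx hc₀ hs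
    exact ⟨ST_twist _ _ h1 hC, cls_twist (extend ρ ι) (extend (twist χ ρ) ι) hun hsim hC hx σ hσ χ
      (twist_extend χ ρ ι) (G1_twist _ _ h1) ⟨scal (-1), hneg⟩ rfl⟩
  intro _ _ μ _ _ f hf
  set z : C := ⟨scal (-1), hneg⟩ with hz
  haveI : CompactSpace C := isCompact_iff_compactSpace.mp hC.compact
  have hzz : z * z = 1 := by
    apply Subtype.ext
    rw [Subgroup.coe_mul, hz, Subgroup.coe_one]
    change scal (-1) * scal (-1) = (1 : GL (Fin g ⊕ Fin g) ℂ)
    rw [← scal_hom]
    simp [scal]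
  -- the even part has the same integral
  have hint : ∫ c, even z f c ∂μ = ∫ c, f c ∂μ := by
    have h1 : ∫ c, f (z * c) ∂μ = ∫ c, f c ∂μ := integral_mul_left_eq_self (μ := μ) f z
    have h2 : ∫ c, (f c + f (z * c)) ∂μ = ∫ c, f c ∂μ + ∫ c, f (z * c) ∂μ :=
      integral_add (Haar.integ μ hf) (Haar.integ μ (hf.comp (continuous_const.mul continuous_id)))
    unfold even
    rw [integral_div, h2, h1]
    ring
  have hbd : ∃ B₀ : ℝ, ∀ c, ‖f c‖ ≤ B₀ := by
    obtain ⟨B₀, hB₀⟩ := isCompact_univ.exists_bound_of_continuousOn hf.continuousOn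
    exact ⟨B₀, fun c => hB₀ c trivial⟩
  have hodd : ∀ B : ℝ, (∀ c, ‖f c‖ ≤ B) → ∀ c, ‖odd z f c‖ ≤ B := by
    intro B hB c
    unfold odd
    rw [norm_div, Complex.norm_ofNat, div_le_iff₀ (by norm_num)]
    refine (norm_sub_le _ _).trans ?_
    linarith [hB c, hB (z * c)]
  have hdisc : ∀ (χ : Gal(AlgebraicClosure K/K) →* ℤˣ) (N : ℕ),
      disc K μ (tw z σ x χ) f N - disc K μ x (even z f) N =
        avg K (fun v => (((χ (σ v) : ℤˣ) : ℤ) : ℂ) * odd z f (x v)) N := by
    intro χ N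
    unfold disc
    rw [hint, sub_sub_sub_cancel_right, Fld.avg_eq, Fld.avg_eq, Fld.avg_eq, ← sub_div,
      ← Finset.sum_sub_distrib]
    congr 1
    refine Finset.sum_congr rfl fun v _ => ?_
    unfold tw even odd
    rcases Int.units_eq_one_or (χ (σ v)) with h | h
    · rw [if_pos h, h]
      push_cast
      ring
    · rw [if_neg (by rw [h]; decide), h]
      push_cast
      ring
  have h2 : ∀ (I : Type) [Fintype I] (χ : I → (Gal(AlgebraicClosure K/K) →* ℤˣ)),
        (∀ i, IsOpen ((χ i).ker : Set Gal(AlgebraicClosure K/K))) → Function.Injective χ →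
        ∀ ε : ℝ, 0 < ε → ∀ᶠ N in atTop,
          ∑ i, ‖disc K μ (tw z σ x (χ i)) f N - disc K μ x (even z f) N‖ ^ 2 ≤
            (avg K (fun v => ((‖odd z f (x v)‖ ^ 2 : ℝ) : ℂ)) N).re + ε := by
    intro I _ χ hχ hinj ε hε
    obtain ⟨B₀, hB₀⟩ := hbd
    have h1 := bessel_chi σ hσ χ hχ hinj (fun v => odd z f (x v)) B₀ (fun v => hodd B₀ hB₀ _) ε hε
    filter_upwards [h1] with N hN
    refine le_trans (le_of_eq (Finset.sum_congr rfl fun i _ => ?_)) hN
    rw [hdisc]
  refine ⟨h2, ?_⟩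
  intro B hB 𝒰 h𝒰 δ hδ
  have hB0 : 0 ≤ B := (norm_nonneg _).trans (hB 1)
  set X : Set (Gal(AlgebraicClosure K/K) →* ℤˣ) := {χ : Gal(AlgebraicClosure K/K) →* ℤˣ |
    IsOpen (χ.ker : Set Gal(AlgebraicClosure K/K)) ∧ ∀ᶠ N in (𝒰 : Filter ℕ),
            δ < ‖disc K μ (tw z σ x χ) f N - disc K μ x (even z f) N‖} with hX
  -- finite subsets
  have hfin : ∀ T : Finset (Gal(AlgebraicClosure K/K) →* ℤˣ), (T : Set _) ⊆ X →
      (T.card : ℝ) * δ ^ 2 ≤ B ^ 2 := by
    intro T hT
    refine le_of_forall_pos_le_add fun ε hε => ?_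
    have h3 := h2 T (fun i => i.1) (fun i => (hT i.2).1) Subtype.val_injective ε hε
    have h4 := h𝒰 h3
    have h5 : ∀ᶠ N in (𝒰 : Filter ℕ), ∀ i : T,
        δ < ‖disc K μ (tw z σ x i.1) f N - disc K μ x (even z f) N‖ := by
      rw [Filter.eventually_all]
      exact fun i => (hT i.2).2
    have h6 : ∀ᶠ N in (𝒰 : Filter ℕ), (0 : ℝ) <
        ((Pool.Agent.W540.BE.upto K N).card : ℝ) := h𝒰 (card_ne (K := K))
    obtain ⟨N, hN1, hN2, hN3⟩ := ((show ∀ᶠ N in (𝒰 : Filter ℕ), _ from h4).and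
      (h5.and h6)).exists
    have h7 : (T.card : ℝ) * δ ^ 2 ≤
        ∑ i : T, ‖disc K μ (tw z σ x i.1) f N - disc K μ x (even z f) N‖ ^ 2 := by
      refine le_trans (le_of_eq ?_) (Finset.sum_le_sum fun (i : T) _ =>
        pow_le_pow_left₀ hδ.le (hN2 i).le 2)
      rw [Finset.sum_const, nsmul_eq_mul, Finset.card_univ, Fintype.card_coe]
    refine h7.trans (hN1.trans (add_le_add ?_ le_rfl))
    rw [Fld.avg_eq, ← Complex.ofReal_sum, ← Complex.ofReal_natCast, ← Complex.ofReal_div,
      Complex.ofReal_re, div_le_iff₀ hN3]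
    refine (Finset.sum_le_sum fun v _ =>
      pow_le_pow_left₀ (norm_nonneg _) (hodd B hB (x v)) 2).trans ?_
    rw [Finset.sum_const, nsmul_eq_mul, mul_comm]
  by_contra hcon
  rw [not_le] at hcon
  have h8 : ((⌊B ^ 2 / δ ^ 2⌋₊ + 1 : ℕ) : ℕ∞) ≤ X.encard := by
    rw [Nat.cast_add, Nat.cast_one]
    exact Order.add_one_le_of_lt hcon
  obtain ⟨T', hT', hTc⟩ := Set.exists_subset_encard_eq h8
  have hT'f : T'.Finite := Set.finite_of_encard_eq_coe hTc
  have h9 := hfin hT'f.toFinset (by rw [Set.Finite.coe_toFinset]; exact hT')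
  have h10 : hT'f.toFinset.card = ⌊B ^ 2 / δ ^ 2⌋₊ + 1 := by
    rw [hT'f.encard_eq_coe_toFinset_card] at hTc
    exact_mod_cast hTc
  rw [h10, ← le_div_iff₀ (by positivity)] at h9
  have h11 := Nat.lt_floor_add_one (B ^ 2 / δ ^ 2)
  push_cast at h9
  linarith

end Pool.Agent.Results.MP_4c4ce6_nt.QuadraticTwists
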