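import Pool.Agent.Run7.h886.SX.Fin

/-!
# The odd cohomology of random hypersurfaces and sections: all polynomials in the traces of the powers of Frobenius

Let `X_l`, `l ∈ Λ`, be smooth hypersurfaces of degrees `δ_l` and odd dimensions `n_l - 1` over `ℚ`, `V_l = H^(n_l - 1)(X_l)`, a rational
polarized Hodge structure of odd weight with its compatible family, and let `x_(l, j)(p)` be the trace of the `j`-th power of Frobenius at `p` on
`V_l`, divided by `p ^ (j (n_l - 1) / 2)`. For almost all `X_l` the Sato-Tate groups are the full groups `USp(V_l)`, and the equidistribution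
for the sum of the `V_l` says that every polynomial in the `x_(l, j)`, in other words every class function that is algebraic, has over the
primes the average predicted by the Haar measure of the product of the `USp(V_l)`. For polynomials of weight at most half the rank the Haar
average is the mean value for independent normal variables `x_(l, j)` of variance `j` and of mean `-1` (`j` even) or `0` (`j` odd)
(Diaconis, Shahshahani).

It is proved, unconditionally, for almost all `X_l` and all polynomials of weight at most `(δ_l + 1) / 2` in the `x_(l, j)` for each `l`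
(`x_(l, j)` has weight `j`), with a square root error term, in all intervals of primes and for all bounded weights. In particular the
characters of the tensor products of the symmetric powers, which are irreducible representations of the product of the `USp(V_l)`, are orthonormal
on average over the primes: the average of `∏_l Tr(x_l(p) | Sym^(k_l) V_l) Tr(x_l(p) | Sym^(k'_l) V_l)` is `1` if `k = k'` and `0` otherwise,
for `k_l + k'_l ≤ (δ_l + 1) / 2`; so that of one nontrivial character (`k' = 0`) is `0`.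

The same holds for the sections `W_l ∩ {F_l = 0}` of fixed closed subschemes `W_l` of even dimension `D_l ≥ 2` with
`q ^ (D_l) (1 + O(q ^ (-1 / 2)))` points over the fields with `q` elements (the vanishing cohomology, of odd degree).

The monomials are from helper3 (`Run7/h3/ST`, hand-in MP_32ceeb_nt.PowerTraces, where the page is on even weight). New here: arbitrary polynomials,
the evaluation for the symmetric powers by integration by parts, and other centres for the sections.
-/

set_option autoImplicit false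

namespace Pool.Agent.Results.MP_4c4ce6_nt.SymmetricPowersOddCohomology

open Finset MvPolynomial
open Pool.Agent.Y722.HS (Mon form)
open Run7.h886.SX

/-- The numbers `x t p l j` (`t`: the coefficients, `p ∈ 𝒢 t`: a prime, `l ∈ Λ`, `j ≥ 1`) have on average over `p`, for almost all `t`:
(1) the mean values of all polynomials `f` in the `x_(l, j)` of weight at most `(δ l + 1) / 2` in each block `l` that normal variables have
(the variable `(l, i)` of `f` stands for `x_(l, i + 1)`, of weight `i + 1`);
(2) the orthonormality of the products over `l` of the complete symmetric functions `h_(k l)`, in terms of the power sums `x_(l, j)`. -/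
def SymplecticMoments {Λ κ : Type} [Fintype Λ] [DecidableEq Λ] [Fintype κ] [DecidableEq κ] (ε : ℝ) (δ : Λ → ℕ)
    (𝒢 : (κ → ℤ) → Set ℕ) (x : (κ → ℤ) → ℕ → Λ → ℕ → ℝ) : Prop :=
  (∀ f : MvPolynomial (Λ × ℕ) ℝ, (∀ l, 2 * f.weightedTotalDegree (blk l) ≤ δ l + 1) →
    AlmostAll ε (mean (fun _ => -1) f) 𝒢 fun t p => eval (fun v => x t p v.1 (v.2 + 1)) f) ∧
  ∀ k k' : Λ → ℕ, (∀ l, 2 * (k l + k' l) ≤ δ l + 1) →
    AlmostAll ε (if k = k' then 1 else 0) 𝒢 fun t p =>
      ∏ l, sym (fun i => x t p l (i + 1)) (k l) * sym (fun i => x t p l (i + 1)) (k' l)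

lemma of_mono {Λ κ : Type} [Fintype Λ] [DecidableEq Λ] [Fintype κ] [DecidableEq κ] {ε : ℝ} {δ : Λ → ℕ}
    {𝒢 : (κ → ℤ) → Set ℕ} {x : (κ → ℤ) → ℕ → Λ → ℕ → ℝ}
    (h : ∀ (J : ℕ) (a : Λ → ℕ → ℕ), (∀ l, 2 * ∑ j ∈ Icc 1 J, j * a l j ≤ δ l + 1) →
      AlmostAll ε (∏ l, ∏ j ∈ Icc 1 J, moment (-1) j (a l j)) 𝒢 fun t p => ∏ l, ∏ j ∈ Icc 1 J, x t p l j ^ a l j) :
    SymplecticMoments ε δ 𝒢 x :=
  ⟨fun f hf => poly (fun _ => -1) δ x h f hf, fun k k' hk => symm δ x h k k' hk⟩

lemma odd_sign {D : ℕ} (h : 2 ≤ D ∧ Even D) : (-1 : ℝ) ^ (D - 1) = -1 := by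
  obtain ⟨h1, a, ha⟩ := h
  exact Odd.neg_one_pow ⟨a - 1, by omega⟩

/-- **The joint Sato-Tate moments of the odd cohomology of almost all hypersurfaces and sections.** -/
theorem result :
    -- hypersurfaces `F_l = 0` of odd dimension `n_l - 1`, primes of good reduction
    (∀ {Λ : Type} [Fintype Λ] [DecidableEq Λ] (n δ : Λ → ℕ) (ε : ℝ), (∀ l, 2 ≤ n l ∧ Even (n l)) → (∀ l, 1 ≤ δ l) → 0 < ε → ε ≤ 1 →
      SymplecticMoments ε δ (fun t : (Σ l, Mon (n l) (δ l)) → ℤ => {p | ∀ l, Good (form fun m => t ⟨l, m⟩) p})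
        fun t p l j => trace ∅ (form fun m => t ⟨l, m⟩) (n l) (∑ i ∈ range (n l), ((p : ℝ) ^ j) ^ i) p j) ∧
    -- sections `W_l ∩ {F_l = 0}` of subschemes `W_l` of even dimension `D_l`, all primes
    (∀ {Λ : Type} [Fintype Λ] [DecidableEq Λ] (n D δ : Λ → ℕ) (S : ∀ l, Set (MvPolynomial (Fin (n l + 1)) ℤ)) (b : Λ → ℕ → ℕ → ℝ) (C₀ ε : ℝ),
      (∀ l, 2 ≤ D l ∧ Even (D l)) → (∀ l, ∀ G ∈ S l, ∃ d, G.IsHomogeneous d) →
      (∀ l, ∀ p : ℕ, p.Prime → ∀ j, 1 ≤ j →
        |(points p j (S l) : ℝ) - (p : ℝ) ^ (j * D l)| ≤ C₀ * ((p : ℝ) ^ (j * D l) / Real.sqrt p ^ j)) →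
      (∀ l, ∀ p : ℕ, p.Prime → ∀ j, 1 ≤ j →
        |(points p j (S l) : ℝ) / (p : ℝ) ^ j - b l p j| ≤ C₀ * (Real.sqrt p ^ (j * (D l - 1)) / Real.sqrt p ^ j)) →
      0 < ε → ε ≤ 1 →
      SymplecticMoments ε δ (fun _ : (Σ l, Mon (n l) (δ l)) → ℤ => Set.univ)
        fun t p l j => trace (S l) (form fun m => t ⟨l, m⟩) (D l) (b l p j) p j) := by
  refine ⟨fun {Λ} _ _ n δ ε hn hδ hε hε1 => of_mono fun J a ha => ?_, fun {Λ} _ _ n D δ S b C₀ ε hD hS hW hb hε hε1 => of_mono fun J a ha => ?_⟩
  · have h1 := mono_hyper n δ J a ε (fun l => (hn l).1) hδ ha hε hε1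
    simp only [fun l => odd_sign (hn l)] at h1
    exact h1
  · have h1 := mono_sections n D δ S b J a C₀ ε (fun l => (hD l).1) hS hW hb ha hε hε1
    simp only [fun l => odd_sign (hD l)] at h1
    exact h1

end Pool.Agent.Results.MP_4c4ce6_nt.SymmetricPowersOddCohomology
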